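import Pool.Agent.Q21.GD.Fin
import Pool.Agent.Q30.GrigDepth
import Pool.Agent.H776R2.Diam.Fin2

set_option autoImplicit false

/-! Short words with bounded sections; length of elements of given depth. -/

namespace Q21.GD

open Pool.Agent.Results.MP_03d093_al.SphereBall Pool.Agent.H776R2.Grig
open scoped commutatorElement Pointwise
open Q30.Grig (IsSection SectionsShort S5 depth)

theorem q_fun_eq (w : List Bool) :
    Q30.Grig.bFun w = bFun w ∧ Q30.Grig.cFun w = cFun w ∧ Q30.Grig.dFun w = dFun w := by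
  have ha : ∀ w, Q30.Grig.aFun w = aFun w := by
    intro w
    cases w <;> rfl
  induction w with
  | nil =>
    simp [Q30.Grig.bFun, Q30.Grig.cFun, Q30.Grig.dFun, bFun, cFun, dFun]
  | cons x w ih =>
    obtain ⟨h1, h2, h3⟩ := ih
    cases x <;>
      simp [Q30.Grig.bFun, Q30.Grig.cFun, Q30.Grig.dFun, bFun, cFun, dFun, h1, h2, h3, ha]

theorem q_a : Q30.Grig.a = a := by
  ext1 w
  cases w <;> rfl
theorem q_b : Q30.Grig.b = b := by ext1 w; exact (q_fun_eq w).1
theorem q_c : Q30.Grig.c = c := by ext1 w; exact (q_fun_eq w).2.1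
theorem q_d : Q30.Grig.d = d := by ext1 w; exact (q_fun_eq w).2.2

theorem q_Gamma : Q30.Grig.Gamma = G := by
  unfold Q30.Grig.Gamma G
  rw [q_a, q_b, q_c, q_d]

theorem mem_S5 {g : P} : g ∈ S5 ↔ g = 1 ∨ ∃ s : Lt, g = gen s := by
  unfold S5
  rw [q_a, q_b, q_c, q_d]
  simp only [Set.mem_insert_iff, Set.mem_singleton_iff]
  constructor
  · rintro (h | h | h | h | h)
    · exact Or.inl h
    · exact Or.inr ⟨Lt.A, h⟩
    · exact Or.inr ⟨Lt.B, h⟩
    · exact Or.inr ⟨Lt.C, h⟩
    · exact Or.inr ⟨Lt.D, h⟩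
  · rintro (h | ⟨s, h⟩)
    · exact Or.inl h
    · cases s
      · exact Or.inr (Or.inl h)
      · exact Or.inr (Or.inr (Or.inl h))
      · exact Or.inr (Or.inr (Or.inr (Or.inl h)))
      · exact Or.inr (Or.inr (Or.inr (Or.inr h)))

theorem S5_mono {L M : ℕ} (h : L ≤ M) : S5 ^ L ⊆ S5 ^ M :=
  Set.pow_subset_pow_right Q30.Grig.one_mem h

theorem ev_mem_pow (w : List Lt) : ev w ∈ S5 ^ w.length := by
  induction w with
  | nil => simp
  | cons s w ih =>
    rw [ev_cons, List.length_cons, pow_succ']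
    exact Set.mul_mem_mul (mem_S5.2 (Or.inr ⟨s, rfl⟩)) ih

theorem mem_pow_iff {L : ℕ} {g : P} : g ∈ S5 ^ L ↔ ∃ w : List Lt, w.length ≤ L ∧ ev w = g := by
  constructor
  · intro h
    induction L generalizing g with
    | zero =>
      rw [pow_zero, Set.mem_one] at h
      exact ⟨[], le_rfl, h.symm⟩
    | succ L ih =>
      rw [pow_succ', Set.mem_mul] at h
      obtain ⟨s, hs, t, ht, rfl⟩ := h
      obtain ⟨w, hw, rfl⟩ := ih ht
      rcases mem_S5.1 hs with rfl | ⟨s, rfl⟩
      · exact ⟨w, by omega, by simp⟩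
      · exact ⟨s :: w, by simpa using hw, by rw [ev_cons]⟩
  · rintro ⟨w, hw, rfl⟩
    exact S5_mono hw (ev_mem_pow w)

theorem pow_inv_mem {L : ℕ} {g : P} (h : g ∈ S5 ^ L) : g⁻¹ ∈ S5 ^ L := by
  obtain ⟨w, hw, rfl⟩ := mem_pow_iff.1 h
  exact mem_pow_iff.2 ⟨w.reverse, by rwa [List.length_reverse], ev_reverse w⟩

theorem S5_finite (L : ℕ) : (S5 ^ L).Finite := by
  induction L with
  | zero => rw [pow_zero]; exact Set.finite_one
  | succ L ih =>
    rw [pow_succ]
    refine ih.mul ?_
    unfold S5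
    exact Set.toFinite _

theorem lift_isSection (n : ℕ) (f : List Bool → P) (v : List Bool) (hv : v.length = n)
    (h0 : f v [] = []) : IsSection (lift n f) v (f v) := by
  intro s
  have h1 := lift_apply n f v [] hv
  rw [h0] at h1
  simp only [List.append_nil] at h1
  rw [lift_apply n f v s hv, h1]

theorem nil_of_mem {g : P} (hg : g ∈ MM) : g [] = [] := by
  obtain ⟨w, -, rfl⟩ := MM_le_Kg hg
  exact ev_nil_apply w

/-- every element agrees modulo `MM` on level `n` with an element of length `O(λ^n)` whose sections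
on level `n` are bounded -/
theorem approx : ∃ (C : ℝ) (B : ℕ), 0 ≤ C ∧ ∀ (n : ℕ) (g : List Lt),
    ∃ (w : P) (μ : List Bool → P), WL w (C * lam ^ n) ∧ (∀ v, μ v ∈ MM) ∧
      ev g = w * lift n μ ∧ ∀ v : List Bool, v.length = n → ∃ s ∈ S5 ^ B, IsSection w v s := by
  classical
  obtain ⟨R, hR, hRw, hcov⟩ := finite_MM
  obtain ⟨T, hT, hTcov⟩ := finite_T
  obtain ⟨CT, hCT, hTlen⟩ := finite_cheap T (fun t ht => cheap_of_mem (hT t ht))
  -- bounds for `R` and `T`
  obtain ⟨CR, hCR, hRlen⟩ := unif hR.toFinset.toList (fun r C => WL r C)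
    (fun r x y hxy h => h.mono hxy) (by
      intro r hr
      simp only [Finset.mem_toList, Set.Finite.mem_toFinset] at hr
      obtain ⟨w, rfl⟩ := hRw r hr
      exact ⟨_, WL.exists_of_ev w⟩)
  obtain ⟨Ct, hCt, hTb⟩ := unif T (fun r C => WL r C)
    (fun r x y hxy h => h.mono hxy) (by
      intro r hr
      obtain ⟨w, -, rfl⟩ := MM_le_Kg (hT r hr)
      exact ⟨_, WL.exists_of_ev w⟩)
  obtain ⟨B1, hB1⟩ := exists_nat_ge CR
  obtain ⟨τ, hτ⟩ := exists_nat_ge Ct
  set B : ℕ := B1 + τ + 1 with hB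
  have hl1 : (1 : ℝ) ≤ lam := by have := lam_gt; linarith
  refine ⟨CR + CT, B, by positivity, ?_⟩
  intro n g
  induction n with
  | zero =>
    obtain ⟨r, hr, h⟩ := hcov g
    have hr' : r ∈ hR.toFinset.toList := by simpa using hr
    refine ⟨r, fun _ => r⁻¹ * ev g, (hRlen r hr').mono ?_, fun _ => h, ?_, ?_⟩
    · rw [pow_zero, mul_one]; linarith
    · show ev g = r * (r⁻¹ * ev g)
      rw [mul_inv_cancel_left]
    · intro v hv
      have : v = [] := List.length_eq_zero_iff.1 hv
      subst this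
      refine ⟨r, ?_, ?_⟩
      · obtain ⟨w, hw, hw'⟩ := hRlen r hr'
        refine mem_pow_iff.2 ⟨w, ?_, hw'⟩
        have : (w.length : ℝ) ≤ B1 := hw.trans hB1
        have : w.length ≤ B1 := by exact_mod_cast this
        omega
      · obtain ⟨w, rfl⟩ := hRw r hr
        intro s
        rw [ev_nil_apply]
        rfl
  | succ n ih =>
    obtain ⟨w, μ, hw, hμ, he, hsec⟩ := ih
    choose t ht m0 hm0 m1 hm1 hdec using fun v => hTcov (μ v) (hμ v)
    refine ⟨w * lift n t, fun v => if v.getLast?.getD false then m1 v.dropLast else m0 v.dropLast,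
      ?_, ?_, ?_, ?_⟩
    · refine (hw.mul (hTlen n t fun v => Or.inl (ht v))).mono ?_
      have h1 : (0 : ℝ) < lam ^ n := pow_pos lam_pos n
      have h2 : (2 : ℝ) ≤ lam := by have := lam_gt; linarith
      rw [pow_succ]
      have h3 : (0 : ℝ) ≤ CR * lam ^ n := by positivity
      have h4 : (0 : ℝ) ≤ CT * lam ^ n := by positivity
      nlinarith
    · intro v
      dsimp only
      split_ifs
      · exact hm1 _
      · exact hm0 _
    · rw [he, lift_succ', mul_assoc, lift_mul]
      congr 1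
      apply lift_congr
      intro v _
      simp only [List.getLast?_append, List.getLast?_singleton, Option.some_or, Option.getD_some,
        List.dropLast_concat, if_true, Bool.false_eq_true, if_false]
      exact hdec v
    · intro v' hv'
      obtain ⟨v, x, rfl⟩ : ∃ v x, v' = v ++ [x] := by
        refine ⟨v'.dropLast, v'.getLast (by intro h; simp [h] at hv'), ?_⟩
        rw [List.dropLast_append_getLast]
      have hv : v.length = n := by simpa using hv'
      obtain ⟨s, hs, hs'⟩ := hsec v hv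
      have h1 : IsSection (lift n t) v (t v) := lift_isSection n t v hv (nil_of_mem (hT _ (ht v)))
      have h2 : lift n t v = v := by
        have := lift_apply n t v [] hv
        rw [nil_of_mem (hT _ (ht v))] at this
        simpa using this
      have h3 : IsSection (w * lift n t) v (s * t v) := h1.mul (by rw [h2]; exact hs')
      have h4 : s * t v ∈ S5 ^ (B + τ) := by
        rw [pow_add]
        refine Set.mul_mem_mul hs ?_
        obtain ⟨u, hu, hu'⟩ := hTb (t v) (ht v)
        refine mem_pow_iff.2 ⟨u, ?_, hu'⟩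
        have : (u.length : ℝ) ≤ τ := hu.trans hτ
        exact_mod_cast this
      obtain ⟨k, hk, hk'⟩ := Q30.Grig.contract _ _ h4 x
      refine ⟨k, S5_mono (by omega) hk, h3.comp hk'⟩

/-- elements of depth at most `n` have length `O(λ^n)` -/
theorem length_of_short : ∃ C : ℝ, 0 < C ∧ ∀ (n : ℕ) (g : List Lt), SectionsShort (ev g) n →
    WL (ev g) (C * lam ^ n) := by
  classical
  obtain ⟨C, B, hC, happ⟩ := approx
  have hfin : {g : P | g ∈ S5 ^ (B + 1) ∧ g ∈ MM}.Finite :=
    (S5_finite (B + 1)).subset fun g hg => hg.1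
  obtain ⟨C', hC', hΦ⟩ := finite_cheap hfin.toFinset.toList (by
    intro g hg
    simp only [Finset.mem_toList, Set.Finite.mem_toFinset, Set.mem_ofPred_eq] at hg
    exact cheap_of_mem hg.2)
  refine ⟨C + C' + 1, by positivity, ?_⟩
  intro n g hg
  obtain ⟨w, μ, hw, hμ, he, hsec⟩ := happ n g
  have key : ∀ v : List Bool, v.length = n → μ v ∈ S5 ^ (B + 1) := by
    intro v hv
    obtain ⟨s, hs, hs'⟩ := hsec v hv
    obtain ⟨h, hh, hh'⟩ := hg v hv
    have h1 : IsSection (lift n μ) v (μ v) := lift_isSection n μ v hv (nil_of_mem (hμ v))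
    have h2 : lift n μ v = v := by
      have := lift_apply n μ v [] hv
      rw [nil_of_mem (hμ v)] at this
      simpa using this
    have h3 : IsSection (w * lift n μ) v (s * μ v) := h1.mul (by rw [h2]; exact hs')
    rw [← he] at h3
    have h4 : s * μ v = h := Q30.Grig.sec_unique h3 hh'
    have h5 : μ v = s⁻¹ * h := by rw [← h4, inv_mul_cancel_left]
    rw [h5, pow_succ]
    exact Set.mul_mem_mul (pow_inv_mem hs) hh
  have e : lift n μ = lift n (fun v => if v.length = n then μ v else 1) := by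
    apply lift_congr
    intro v hv
    rw [if_pos hv]
  rw [he, e]
  refine (hw.mul (hΦ n _ ?_)).mono ?_
  · intro v
    by_cases hv : v.length = n
    · left
      rw [if_pos hv]
      simp only [Finset.mem_toList, Set.Finite.mem_toFinset, Set.mem_ofPred_eq]
      exact ⟨key v hv, hμ v⟩
    · right
      rw [if_neg hv]
  · have : (0 : ℝ) < lam ^ n := pow_pos lam_pos n
    nlinarith

/-- there are elements of depth `n + O(1)` and length at least `c λ^n` -/
theorem exists_long : ∃ (c : ℝ) (k : ℕ), 0 < c ∧ ∀ n : ℕ, 2 ≤ n → ∃ w : List Lt,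
    SectionsShort (ev w) (n + k) ∧ ∀ w' : List Lt, ev w' = ev w → c * lam ^ n ≤ w'.length := by
  obtain ⟨C, B, hC, happ⟩ := approx
  obtain ⟨D, hD, hL⟩ := Pool.Agent.H776R2.Diam.lam_le_L
  obtain ⟨k, hk⟩ : ∃ k : ℕ, B ≤ 2 ^ k := ⟨B, Nat.lt_two_pow_self.le⟩
  refine ⟨1 / D, k, by positivity, ?_⟩
  intro n hn
  obtain ⟨hz, hlen, -⟩ := Pool.Agent.Results.MP_b99418_al.ExactLength.result n hn
  obtain ⟨l, hl⟩ := Pool.Agent.H776R2.Diam.I_word n hz
  obtain ⟨w, μ, ⟨w0, -, hw0⟩, hμ, he, hsec⟩ := happ n (l.map Pool.Agent.H776R2.Diam.I_lt)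
  refine ⟨w0, ?_, ?_⟩
  · rw [hw0]
    intro u hu
    have h1 : (u.take n).length = n := by rw [List.length_take]; omega
    obtain ⟨s, hs, hs'⟩ := hsec (u.take n) h1
    have h2 := Q30.Grig.short_of_le k B s hs hk
    obtain ⟨h, hh, hh'⟩ := h2 (u.drop n) (by rw [List.length_drop]; omega)
    refine ⟨h, hh, ?_⟩
    have := hs'.comp hh'
    rwa [List.take_append_drop] at this
  · intro w' hw'
    have h1 : Pool.Agent.Results.MP_b99418_al.ExactLength.len n
        (Pool.Agent.Results.MP_b99418_al.ExactLength.z n) ≤ w'.length := by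
      unfold Pool.Agent.Results.MP_b99418_al.ExactLength.len
      refine Nat.sInf_le ⟨w'.map Pool.Agent.H776R2.Diam.I_gen, List.length_map _, ?_⟩
      rw [← hl]
      refine Equiv.ext fun u => Subtype.ext ?_
      rw [Pool.Agent.Results.MP_b99418_al.ExactLength.prod_apply,
        Pool.Agent.Results.MP_b99418_al.ExactLength.prod_apply, Pool.Agent.H776R2.Diam.I_ev,
        Pool.Agent.H776R2.Diam.I_ev, List.map_map]
      have h2 : w'.map (Pool.Agent.H776R2.Diam.I_lt ∘ Pool.Agent.H776R2.Diam.I_gen) = w' := by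
        conv_rhs => rw [← List.map_id w']
        exact List.map_congr_left fun x _ => Pool.Agent.H776R2.Diam.I_lt_gen x
      rw [h2, hw', hw0, he, Equiv.Perm.mul_apply]
      have h3 : lift n μ u.1 = u.1 := by
        have := lift_apply n μ u.1 [] u.2
        rw [nil_of_mem (hμ _)] at this
        simpa using this
      rw [h3]
    rw [hlen] at h1
    have h2 := hL n (by omega)
    have h3 : (Pool.Agent.Results.MP_b99418_al.ExactLength.L n : ℝ) ≤ w'.length := by
      exact_mod_cast h1
    rw [one_div, inv_mul_le_iff₀ hD]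
    exact h2.trans (mul_le_mul_of_nonneg_left h3 hD.le)

end Q21.GD
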