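import Pool.Agent.H776R2.Grig.Realize

set_option autoImplicit false

/-! Elements of the Grigorchuk group with prescribed sections: basic constructions. -/

namespace Q21.GD

open Pool.Agent.Results.MP_03d093_al.SphereBall Pool.Agent.H776R2.Grig

/-- the function underlying `pr` -/
def prFun (g0 g1 : P) : List Bool → List Bool
  | [] => []
  | false :: t => false :: g0 t
  | true :: t => true :: g1 t

theorem prFun_prFun (g0 g1 h0 h1 : P) (u : List Bool) :
    prFun g0 g1 (prFun h0 h1 u) = prFun (g0 * h0) (g1 * h1) u := by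
  match u with
  | [] => rfl
  | false :: t => rfl
  | true :: t => rfl

theorem prFun_one (u : List Bool) : prFun 1 1 u = u := by
  match u with
  | [] => rfl
  | false :: t => rfl
  | true :: t => rfl

/-- the element with sections `g0`, `g1`, fixing the first level -/
def pr (g0 g1 : P) : P where
  toFun := prFun g0 g1
  invFun := prFun g0⁻¹ g1⁻¹
  left_inv := fun u => by rw [prFun_prFun, inv_mul_cancel, inv_mul_cancel, prFun_one]
  right_inv := fun u => by rw [prFun_prFun, mul_inv_cancel, mul_inv_cancel, prFun_one]

@[simp] theorem pr_nil (g0 g1 : P) : pr g0 g1 [] = [] := rfl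
@[simp] theorem pr_false (g0 g1 : P) (t : List Bool) : pr g0 g1 (false :: t) = false :: g0 t := rfl
@[simp] theorem pr_true (g0 g1 : P) (t : List Bool) : pr g0 g1 (true :: t) = true :: g1 t := rfl

theorem pr_mul (g0 g1 h0 h1 : P) : pr g0 g1 * pr h0 h1 = pr (g0 * h0) (g1 * h1) := by
  ext1 u
  exact prFun_prFun g0 g1 h0 h1 u

theorem pr_one : pr 1 1 = 1 := by
  ext1 u
  exact prFun_one u

theorem pr_inv (g0 g1 : P) : (pr g0 g1)⁻¹ = pr g0⁻¹ g1⁻¹ := by
  rw [inv_eq_iff_mul_eq_one, pr_mul, mul_inv_cancel, mul_inv_cancel, pr_one]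

theorem sec_pr (g0 g1 : P) : Sec (pr g0 g1) g0 g1 := fun _ => ⟨rfl, rfl⟩

theorem eq_pr_of_sec {g g0 g1 : P} (h : Sec g g0 g1) (h0 : g [] = []) : g = pr g0 g1 := by
  ext1 u
  match u with
  | [] => exact h0
  | false :: t => exact (h t).1
  | true :: t => exact (h t).2

theorem pr_inj {g0 g1 h0 h1 : P} (h : pr g0 g1 = pr h0 h1) : g0 = h0 ∧ g1 = h1 := by
  have := (sec_pr g0 g1)
  rw [h] at this
  exact this.unique (sec_pr h0 h1)

theorem a_pr_a (g0 g1 : P) : a * pr g0 g1 * a = pr g1 g0 :=
  eq_pr_of_sec (sec_pr g0 g1).conj rfl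

/-- the element fixing level `n` with sections `f v` -/
def lift : ℕ → (List Bool → P) → P
  | 0, f => f []
  | n + 1, f => pr (lift n fun v => f (false :: v)) (lift n fun v => f (true :: v))

theorem lift_mul (n : ℕ) (f g : List Bool → P) :
    lift n f * lift n g = lift n (fun v => f v * g v) := by
  induction n generalizing f g with
  | zero => rfl
  | succ n ih => rw [lift, lift, lift, pr_mul, ih, ih]

theorem lift_one (n : ℕ) : lift n (fun _ => 1) = 1 := by
  induction n with
  | zero => rfl
  | succ n ih => rw [lift, ih, pr_one]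

theorem lift_inv (n : ℕ) (f : List Bool → P) : (lift n f)⁻¹ = lift n (fun v => (f v)⁻¹) := by
  rw [inv_eq_iff_mul_eq_one, lift_mul]
  simp only [mul_inv_cancel]
  exact lift_one n

theorem lift_congr {n : ℕ} {f g : List Bool → P} (h : ∀ v, v.length = n → f v = g v) :
    lift n f = lift n g := by
  induction n generalizing f g with
  | zero => exact h [] rfl
  | succ n ih =>
    rw [lift, lift, ih (fun v hv => h (false :: v) (by simp [hv])),
      ih (fun v hv => h (true :: v) (by simp [hv]))]

theorem lift_apply (n : ℕ) (f : List Bool → P) (v t : List Bool) (hv : v.length = n) :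
    lift n f (v ++ t) = v ++ f v t := by
  induction n generalizing f v with
  | zero =>
    have : v = [] := List.length_eq_zero_iff.1 hv
    subst this
    rfl
  | succ n ih =>
    match v with
    | false :: v =>
      rw [lift, List.cons_append, pr_false, ih _ v (by simpa using hv), List.cons_append]
    | true :: v =>
      rw [lift, List.cons_append, pr_true, ih _ v (by simpa using hv), List.cons_append]

theorem lift_short (n : ℕ) (f : List Bool → P) (u : List Bool) (hu : u.length < n) :
    lift n f u = u := by
  induction n generalizing f u with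
  | zero => omega
  | succ n ih =>
    match u with
    | [] => rfl
    | false :: u => rw [lift, pr_false, ih _ u (by simpa using hu)]
    | true :: u => rw [lift, pr_true, ih _ u (by simpa using hu)]

theorem lift_add (n m : ℕ) (f : List Bool → P) :
    lift (n + m) f = lift n (fun v => lift m (fun u => f (v ++ u))) := by
  induction n generalizing f with
  | zero => rw [zero_add]; rfl
  | succ n ih =>
    rw [show n + 1 + m = (n + m) + 1 by ring, lift, lift, ih, ih]
    rfl

theorem lift_succ' (n : ℕ) (f : List Bool → P) :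
    lift (n + 1) f = lift n (fun v => pr (f (v ++ [false])) (f (v ++ [true]))) := by
  rw [lift_add]
  rfl

theorem lift_inj {n : ℕ} {f g : List Bool → P} (h : lift n f = lift n g) (v : List Bool)
    (hv : v.length = n) : f v = g v := by
  ext1 t
  have h1 := lift_apply n f v t hv
  rw [h, lift_apply n g v t hv] at h1
  exact (List.append_cancel_left h1).symm

theorem conj_a_lift {n : ℕ} (hn : 1 ≤ n) (f : List Bool → P) :
    a * lift n f * a = lift n (fun v => f (aFun v)) := by
  obtain ⟨m, rfl⟩ : ∃ m, n = m + 1 := ⟨n - 1, by omega⟩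
  rw [lift, a_pr_a]
  rfl

/-- the element acting as `x` below `u` and trivially elsewhere -/
def emb : List Bool → P → P
  | [], x => x
  | false :: u, x => pr (emb u x) 1
  | true :: u, x => pr 1 (emb u x)

theorem emb_mul (u : List Bool) (x y : P) : emb u x * emb u y = emb u (x * y) := by
  induction u with
  | nil => rfl
  | cons b u ih => cases b <;> simp only [emb, pr_mul, ih, mul_one]

theorem emb_one (u : List Bool) : emb u 1 = 1 := by
  induction u with
  | nil => rfl
  | cons b u ih => cases b <;> simp only [emb, ih, pr_one]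

theorem emb_inv (u : List Bool) (x : P) : (emb u x)⁻¹ = emb u x⁻¹ := by
  rw [inv_eq_iff_mul_eq_one, emb_mul, mul_inv_cancel, emb_one]

theorem emb_apply (u t : List Bool) (x : P) : emb u x (u ++ t) = u ++ x t := by
  induction u with
  | nil => rfl
  | cons b u ih => cases b <;> simp [emb, ih]

theorem emb_off (u w : List Bool) (x : P) (h : ¬ u <+: w) : emb u x w = w := by
  induction u generalizing w with
  | nil => exact absurd List.nil_prefix h
  | cons b u ih =>
    match w with
    | [] => cases b <;> rfl
    | b' :: w =>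
      cases b <;> cases b' <;> simp only [emb, pr_false, pr_true, Equiv.Perm.one_apply]
      · rw [ih w (fun h' => h (by simpa using h'))]
      · rw [ih w (fun h' => h (by simpa using h'))]

theorem conj_a_emb (u : List Bool) (hu : u ≠ []) (x : P) : a * emb u x * a = emb (aFun u) x := by
  match u with
  | [] => exact absurd rfl hu
  | false :: u => simp only [emb, a_pr_a, aFun, Bool.not_false]
  | true :: u => simp only [emb, a_pr_a, aFun, Bool.not_true]

open scoped commutatorElement

theorem emb_comm (u : List Bool) (x y : P) : ⁅emb u x, emb u y⁆ = emb u ⁅x, y⁆ := by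
  rw [commutatorElement_def, commutatorElement_def, emb_inv, emb_inv, emb_mul, emb_mul, emb_mul]

theorem lift_comm (n : ℕ) (f g : List Bool → P) :
    ⁅lift n f, lift n g⁆ = lift n (fun v => ⁅f v, g v⁆) := by
  rw [commutatorElement_def, lift_inv, lift_inv, lift_mul, lift_mul, lift_mul]
  rfl

theorem pr_comm (g0 g1 h0 h1 : P) : ⁅pr g0 g1, pr h0 h1⁆ = pr ⁅g0, h0⁆ ⁅g1, h1⁆ := by
  rw [commutatorElement_def, pr_inv, pr_inv, pr_mul, pr_mul, pr_mul]
  rfl

theorem ai (g : P) (w : List Bool) : g (g⁻¹ w) = w := g.apply_symm_apply w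
theorem ia (g : P) (w : List Bool) : g⁻¹ (g w) = w := g.symm_apply_apply w

/-- fragmentation: a double commutator with a prescribed single section -/
theorem frag (e : P) (he : TA e) (u : List Bool) (hu : e u ≠ u) (x y : P) :
    ⁅⁅e, emb u x⁆, emb u y⁆ = emb u ⁅x⁻¹, y⁆ := by
  have key : ∀ w : List Bool, u <+: w → ∀ z : P, (e * emb u z * e⁻¹) w = w := by
    intro w hw z
    have h1 : ¬ u <+: e⁻¹ w := by
      intro h2
      apply hu
      have h3 : (e (e⁻¹ w)).take u.length = e ((e⁻¹ w).take u.length) := he.2 _ _
      rw [← List.prefix_iff_eq_take.1 h2, ai, ← List.prefix_iff_eq_take.1 hw] at h3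
      exact h3.symm
    rw [Equiv.Perm.mul_apply, Equiv.Perm.mul_apply, emb_off u _ z h1, ai]
  have hcomm : ∀ z z' : P, Commute (e * emb u z * e⁻¹) (emb u z') := by
    intro z z'
    apply Equiv.Perm.Disjoint.commute
    intro w
    by_cases hw : u <+: w
    · exact Or.inl (key w hw z)
    · exact Or.inr (emb_off u w z' hw)
  have hB : Commute (e * emb u x * e⁻¹) ((emb u x)⁻¹ * emb u y * emb u x) :=
    (((hcomm x x).inv_right).mul_right (hcomm x y)).mul_right (hcomm x x)
  rw [← emb_comm, ← emb_inv, commutatorElement_def, commutatorElement_def, commutatorElement_def]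
  set A := e * emb u x * e⁻¹ with hA
  calc A * (emb u x)⁻¹ * emb u y * (A * (emb u x)⁻¹)⁻¹ * (emb u y)⁻¹
      = (A * ((emb u x)⁻¹ * emb u y * emb u x) * A⁻¹) * (emb u y)⁻¹ := by
        rw [mul_inv_rev, inv_inv]; simp only [mul_assoc]
    _ = (emb u x)⁻¹ * emb u y * (emb u x)⁻¹⁻¹ * (emb u y)⁻¹ := by
        rw [hB.eq, mul_inv_cancel_right, inv_inv]

end Q21.GD
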