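import Pool.Agent.Q21.GD.Diag

set_option autoImplicit false

/-! Patterns of commutators have length `O(λ^k)`. -/

namespace Q21.GD

open Pool.Agent.Results.MP_03d093_al.SphereBall Pool.Agent.H776R2.Grig
open scoped commutatorElement

/-- all words of length `n` -/
def allw : ℕ → List (List Bool)
  | 0 => [[]]
  | n + 1 => (allw n).map (List.cons false) ++ (allw n).map (List.cons true)

theorem allw_length (n : ℕ) : (allw n).length = 2 ^ n := by
  induction n with
  | zero => rfl
  | succ n ih => rw [allw, List.length_append, List.length_map, List.length_map, ih]; ring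

theorem mem_allw {n : ℕ} {u : List Bool} : u ∈ allw n ↔ u.length = n := by
  induction n generalizing u with
  | zero => simp [allw]
  | succ n ih =>
    rw [allw, List.mem_append, List.mem_map, List.mem_map]
    constructor
    · rintro (⟨v, hv, rfl⟩ | ⟨v, hv, rfl⟩) <;> simp [ih.1 hv]
    · intro h
      match u with
      | [] => simp at h
      | false :: u => exact Or.inl ⟨u, ih.2 (by simpa using h), rfl⟩
      | true :: u => exact Or.inr ⟨u, ih.2 (by simpa using h), rfl⟩

theorem allw_nodup (n : ℕ) : (allw n).Nodup := by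
  induction n with
  | zero => simp [allw]
  | succ n ih =>
    rw [allw, List.nodup_append]
    refine ⟨ih.map (List.cons_injective), ih.map (List.cons_injective), ?_⟩
    intro u hu v hv
    rw [List.mem_map] at hu hv
    obtain ⟨u', -, rfl⟩ := hu
    obtain ⟨v', -, rfl⟩ := hv
    simp

theorem not_prefix {u u0 t : List Bool} (hl : u.length = u0.length) (hne : u ≠ u0) :
    ¬ u <+: u0 ++ t := by
  intro h
  apply hne
  have h1 := List.prefix_iff_eq_take.1 h
  rw [List.take_append_of_le_length (by omega), List.take_of_length_le (by omega)] at h1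
  exact h1

theorem prod_emb_apply (us : List (List Bool)) (hnd : us.Nodup) (l : ℕ)
    (hl : ∀ u ∈ us, u.length = l) (h : List Bool → P) (u0 t : List Bool) (hu0 : u0.length = l) :
    (us.map fun u => emb u (h u)).prod (u0 ++ t) = if u0 ∈ us then u0 ++ h u0 t else u0 ++ t := by
  induction us with
  | nil => simp
  | cons u us ih =>
    rw [List.nodup_cons] at hnd
    rw [List.map_cons, List.prod_cons, Equiv.Perm.mul_apply,
      ih hnd.2 (fun v hv => hl v (List.mem_cons_of_mem _ hv))]
    have hu : u.length = l := hl u List.mem_cons_self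
    by_cases h1 : u0 = u
    · subst h1
      rw [if_neg hnd.1, if_pos List.mem_cons_self, emb_apply]
    · by_cases h2 : u0 ∈ us
      · rw [if_pos h2, if_pos (List.mem_cons_of_mem _ h2), emb_off]
        exact not_prefix (by omega) (fun h => h1 h.symm)
      · rw [if_neg h2, if_neg (by simp [h1, h2]), emb_off]
        exact not_prefix (by omega) (fun h => h1 h.symm)

theorem prod_emb_short (us : List (List Bool)) (l : ℕ)
    (hl : ∀ u ∈ us, u.length = l) (h : List Bool → P) (w : List Bool) (hw : w.length < l) :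
    (us.map fun u => emb u (h u)).prod w = w := by
  induction us with
  | nil => simp
  | cons u us ih =>
    rw [List.map_cons, List.prod_cons, Equiv.Perm.mul_apply,
      ih (fun v hv => hl v (List.mem_cons_of_mem _ hv)), emb_off]
    intro hp
    have h1 := hp.length_le
    have h2 := hl u List.mem_cons_self
    omega

theorem prod_emb (us : List (List Bool)) (hnd : us.Nodup) (l : ℕ)
    (hl : ∀ u, u ∈ us ↔ u.length = l) (h : List Bool → P) :
    (us.map fun u => emb u (h u)).prod = lift l h := by
  ext1 w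
  rcases Nat.lt_or_ge w.length l with hw | hw
  · rw [prod_emb_short us l (fun u hu => (hl u).1 hu) h w hw, lift_short l h w hw]
  · have h1 : (w.take l).length = l := by rw [List.length_take]; omega
    rw [← List.take_append_drop l w, prod_emb_apply us hnd l (fun u hu => (hl u).1 hu) h _ _ h1,
      if_pos ((hl _).2 h1), lift_apply l h _ _ h1]

theorem ua_length (e : Bool) (u : List Bool) : (ua e u).length = u.length := by
  cases e
  · rfl
  · cases u <;> simp [ua, aFun]

theorem ua_ua (e : Bool) (u : List Bool) : ua e (ua e u) = u := by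
  cases e
  · rfl
  · exact aFun_invol u

theorem prod_emb_twist (e : Bool) (l : ℕ) (h : List Bool → P) :
    ((allw l).map fun u => emb (ua e u) (h (ua e u))).prod = lift l h := by
  have h1 : ((allw l).map fun u => emb (ua e u) (h (ua e u))) =
      ((allw l).map (ua e)).map fun u => emb u (h u) := by
    rw [List.map_map]
    rfl
  rw [h1]
  apply prod_emb
  · exact (allw_nodup l).map (Function.Involutive.injective (ua_ua e))
  · intro u
    rw [List.mem_map]
    constructor
    · rintro ⟨v, hv, rfl⟩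
      rw [ua_length]
      exact mem_allw.1 hv
    · intro hu
      exact ⟨ua e u, mem_allw.2 (by rw [ua_length]; exact hu), ua_ua e u⟩

theorem lift_prod {α : Type*} (m : ℕ) (L : List α) (F : α → List Bool → P) :
    (L.map fun u => lift m (F u)).prod = lift m (fun v => (L.map fun u => F u v).prod) := by
  induction L with
  | nil => simp [lift_one]
  | cons u L ih =>
    rw [List.map_cons, List.prod_cons, ih, lift_mul]
    rfl

theorem WL_prod {α : Type*} (L : List α) (g : α → P) (x : ℝ) (h : ∀ u ∈ L, WL (g u) x) :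
    WL (L.map g).prod (L.length * x) := by
  induction L with
  | nil => simpa using WL.one le_rfl
  | cons u L ih =>
    rw [List.map_cons, List.prod_cons, List.length_cons]
    have h1 := (h u List.mem_cons_self).mul (ih fun v hv => h v (List.mem_cons_of_mem _ hv))
    refine h1.mono ?_
    push_cast
    linarith

theorem unif {α : Type*} (s : List α) (A : α → ℝ → Prop)
    (mono : ∀ a x y, x ≤ y → A a x → A a y) (h : ∀ a ∈ s, ∃ C, A a C) :
    ∃ C : ℝ, 0 ≤ C ∧ ∀ a ∈ s, A a C := by
  induction s with
  | nil => exact ⟨0, le_rfl, by simp⟩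
  | cons a s ih =>
    obtain ⟨C, hC, h1⟩ := ih (fun b hb => h b (List.mem_cons_of_mem _ hb))
    obtain ⟨C', h2⟩ := h a List.mem_cons_self
    refine ⟨max C C', le_max_of_le_left hC, ?_⟩
    intro b hb
    rw [List.mem_cons] at hb
    rcases hb with rfl | hb
    · exact mono _ _ _ (le_max_right _ _) h2
    · exact mono _ _ _ (le_max_left _ _) (h1 b hb)

/-- all patterns of the commutators of `E` on level `m` have length at most `N` -/
def Pat (E : List (P × P)) (m : ℕ) (N : ℝ) : Prop :=
  ∀ z ∈ E, ∀ p : List Bool → Bool, WL (lift m (fun v => if p v then ⁅z.1⁻¹, z.2⁆ else 1)) N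

theorem comm_mem_Kg {x y : P} (hx : x ∈ Kg) (hy : y ∈ Kg) : ⁅x⁻¹, y⁆ ∈ Kg := by
  rw [commutatorElement_def]
  exact mul_mem (mul_mem (mul_mem (inv_mem hx) hy) (inv_mem (inv_mem hx))) (inv_mem hy)

theorem TA_Kg {k : P} (hk : k ∈ Kg) : TA k := by
  obtain ⟨w, -, rfl⟩ := hk
  exact ta_ev w

theorem rec_step (E : List (P × P)) (hE : ∀ z ∈ E, z.1 ∈ Kg ∧ z.2 ∈ Kg) (l : ℕ) (hl : 1 ≤ l)
    (hmov : ∀ u : List Bool, u.length = l → ∃ z ∈ E, ⁅z.1⁻¹, z.2⁆ u ≠ u) :
    ∃ C : ℝ, 0 ≤ C ∧ ∀ (m : ℕ) (N : ℝ), Pat E m N →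
      Pat E (m + l) (2 ^ l * (8 * N + C * lam ^ m)) := by
  have hlam : ∀ m : ℕ, (0 : ℝ) < lam ^ m := fun m => pow_pos lam_pos m
  obtain ⟨C0, hC0, hdiag⟩ := unif (E.product (allw l))
    (fun (q : (P × P) × List Bool) C => ∀ m : ℕ,
      WL (lift m (fun v => emb (ua (tw m v) q.2) q.1.1)) (C * lam ^ m) ∧
      WL (lift m (fun v => emb (ua (tw m v) q.2) q.1.2)) (C * lam ^ m))
    (by
      intro q x y hxy h m
      have := mul_le_mul_of_nonneg_right hxy (hlam m).le
      exact ⟨(h m).1.mono this, (h m).2.mono this⟩)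
    (by
      rintro ⟨z, u⟩ hq
      rw [List.pair_mem_product] at hq
      have hu : u ≠ [] := by
        intro h
        have := mem_allw.1 hq.2
        rw [h] at this
        simp at this
        omega
      obtain ⟨C1, hC1, h1⟩ := diag_emb (hE z hq.1).1 u hu
      obtain ⟨C2, hC2, h2⟩ := diag_emb (hE z hq.1).2 u hu
      refine ⟨C1 + C2, fun m => ⟨(h1 m).mono ?_, (h2 m).mono ?_⟩⟩
      · have := hlam m
        nlinarith
      · have := hlam m
        nlinarith)
  refine ⟨6 * C0, by positivity, ?_⟩
  intro m N hN z hz p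
  -- moving elements
  have hmv : ∀ u : List Bool, ∃ y : P × P, u.length = l → y ∈ E ∧ ⁅y.1⁻¹, y.2⁆ u ≠ u := by
    intro u
    by_cases hu : u.length = l
    · obtain ⟨y, h1, h2⟩ := hmov u hu
      exact ⟨y, fun _ => ⟨h1, h2⟩⟩
    · exact ⟨z, fun h => absurd h hu⟩
  choose ew hew using hmv
  set σ : P := ⁅z.1⁻¹, z.2⁆ with hσ
  have e1 : lift (m + l) (fun v => if p v then σ else 1) =
      ((allw l).map fun u => lift m (fun v => emb (ua (tw m v) u)
        (if p (v ++ ua (tw m v) u) then σ else 1))).prod := by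
    rw [lift_prod, lift_add]
    apply lift_congr
    intro v _
    exact (prod_emb_twist (tw m v) l (fun u => if p (v ++ u) then σ else 1)).symm
  rw [e1]
  have key : ∀ u ∈ allw l, WL (lift m (fun v => emb (ua (tw m v) u)
        (if p (v ++ ua (tw m v) u) then σ else 1))) (8 * N + 6 * C0 * lam ^ m) := by
    intro u hu
    have hul := mem_allw.1 hu
    obtain ⟨hX, hY⟩ := hdiag (z, u) (List.pair_mem_product.2 ⟨hz, hu⟩) m
    have h1 := hN (ew u) (hew u hul).1 (fun v => p (v ++ u) && !(tw m v))
    have haul : (aFun u).length = l := by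
      have := ua_length true u
      simp only [ua, if_true] at this
      rw [this, hul]
    have h2 := hN (ew (aFun u)) (hew (aFun u) haul).1 (fun v => p (v ++ aFun u) && tw m v)
    have h3 := ((h1.mul h2).comm hX).comm hY
    rw [lift_mul, lift_comm, lift_comm] at h3
    have e2 : lift m (fun v => emb (ua (tw m v) u) (if p (v ++ ua (tw m v) u) then σ else 1)) =
        lift m (fun v => ⁅⁅(if p (v ++ u) && !(tw m v) then ⁅(ew u).1⁻¹, (ew u).2⁆ else 1) *
          (if p (v ++ aFun u) && tw m v then ⁅(ew (aFun u)).1⁻¹, (ew (aFun u)).2⁆ else 1),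
          emb (ua (tw m v) u) z.1⁆, emb (ua (tw m v) u) z.2⁆) := by
      apply lift_congr
      intro v _
      cases htw : tw m v
      · simp only [ua, Bool.not_false, Bool.and_true, Bool.and_false, Bool.false_eq_true,
          if_false, mul_one]
        cases hp : p (v ++ u)
        · simp [emb_one]
        · simp only [if_true]
          rw [frag _ (TA_Kg (comm_mem_Kg (hE _ (hew u hul).1).1 (hE _ (hew u hul).1).2)) u
            (hew u hul).2]
      · simp only [ua, Bool.not_true, Bool.and_true, Bool.and_false, Bool.false_eq_true,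
          if_false, if_true, one_mul]
        cases hp : p (v ++ aFun u)
        · simp [emb_one]
        · simp only [if_true]
          rw [frag _ (TA_Kg (comm_mem_Kg (hE _ (hew _ haul).1).1 (hE _ (hew _ haul).1).2)) _
            (hew _ haul).2]
    rw [e2]
    refine h3.mono (le_of_eq ?_)
    ring
  refine (WL_prod _ _ _ key).mono (le_of_eq ?_)
  rw [allw_length]
  push_cast
  ring

theorem pat_exists (E : List (P × P)) (hE : ∀ z ∈ E, z.1 ∈ Kg ∧ z.2 ∈ Kg) (m : ℕ) :
    ∃ N : ℝ, 0 ≤ N ∧ Pat E m N := by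
  obtain ⟨C, hC, h⟩ := unif (E.product (allw m))
    (fun (q : (P × P) × List Bool) C => WL (emb q.2 ⁅q.1.1⁻¹, q.1.2⁆) C)
    (fun q x y hxy h => h.mono hxy)
    (by
      rintro ⟨z, u⟩ hq
      rw [List.pair_mem_product] at hq
      obtain ⟨w, -, hw⟩ := emb_mem_Kg u (comm_mem_Kg (hE z hq.1).1 (hE z hq.1).2)
      exact ⟨w.length, w, le_rfl, hw⟩)
  refine ⟨2 ^ m * C, by positivity, ?_⟩
  intro z hz p
  rw [← prod_emb (allw m) (allw_nodup m) m (fun u => mem_allw)]
  have := WL_prod (allw m) (fun u => emb u (if p u then ⁅z.1⁻¹, z.2⁆ else 1)) C (by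
    intro u hu
    cases hp : p u
    · simp only [Bool.false_eq_true, if_false, emb_one]
      exact WL.one hC
    · simp only [if_true]
      exact h (z, u) (List.pair_mem_product.2 ⟨hz, hu⟩))
  rw [allw_length] at this
  push_cast at this
  exact this

theorem lam_pow_ge {l : ℕ} (hl : 14 ≤ l) : 16 * 2 ^ l ≤ lam ^ l := by
  obtain ⟨j, rfl⟩ := Nat.exists_eq_add_of_le hl
  have h1 := lam_gt
  have h2 : (16 : ℝ) * 2 ^ 14 ≤ lam ^ 14 := by
    calc (16 : ℝ) * 2 ^ 14 ≤ 2.465 ^ 14 := by norm_num
      _ ≤ lam ^ 14 := pow_le_pow_left₀ (by norm_num) h1.le 14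
  have h3 : (2 : ℝ) ^ j ≤ lam ^ j := pow_le_pow_left₀ (by norm_num) (by linarith) j
  rw [pow_add, pow_add, ← mul_assoc]
  exact mul_le_mul h2 h3 (by positivity) (pow_nonneg lam_pos.le _)

theorem pat_all (E : List (P × P)) (hE : ∀ z ∈ E, z.1 ∈ Kg ∧ z.2 ∈ Kg)
    (hmov : ∀ u : List Bool, 4 ≤ u.length → ∃ z ∈ E, ⁅z.1⁻¹, z.2⁆ u ≠ u) :
    ∃ C : ℝ, 0 ≤ C ∧ ∀ k : ℕ, Pat E k (C * lam ^ k) := by
  obtain ⟨C0, hC0, hstep⟩ := rec_step E hE 14 (by norm_num) (fun u hu => hmov u (by omega))
  choose N hN0 hN using pat_exists E hE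
  have hl1 : (1 : ℝ) ≤ lam := by have := lam_gt; linarith
  have hsum : ∀ m, m < 14 → N m ≤ ∑ i ∈ Finset.range 14, N i := fun m hm =>
    Finset.single_le_sum (fun i _ => hN0 i) (Finset.mem_range.2 hm)
  have hsum0 : 0 ≤ ∑ i ∈ Finset.range 14, N i := Finset.sum_nonneg fun i _ => hN0 i
  set C1 : ℝ := ∑ i ∈ Finset.range 14, N i with hC1
  refine ⟨C1 + C0, by positivity, ?_⟩
  intro k
  induction k using Nat.strong_induction_on with
  | _ k ih =>
    rcases Nat.lt_or_ge k 14 with hk | hk
    · intro z hz p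
      refine (hN k z hz p).mono ?_
      have h1 := hsum k hk
      have h2 : (1 : ℝ) ≤ lam ^ k := one_le_pow₀ hl1
      nlinarith
    · obtain ⟨m, rfl⟩ : ∃ m, k = m + 14 := ⟨k - 14, by omega⟩
      intro z hz p
      refine (hstep m _ (ih m (by omega)) z hz p).mono ?_
      have h1 := lam_pow_ge (le_refl 14)
      have h2 : (0 : ℝ) < lam ^ m := pow_pos lam_pos m
      have h3 : (C1 + C0) * lam ^ (m + 14) = (C1 + C0) * lam ^ m * lam ^ 14 := by ring
      have h4 : (C1 + C0) * lam ^ m * (16 * 2 ^ 14) ≤ (C1 + C0) * lam ^ m * lam ^ 14 :=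
        mul_le_mul_of_nonneg_left h1 (by positivity)
      have h5 : (0 : ℝ) ≤ C1 * lam ^ m := by positivity
      have h6 : (0 : ℝ) ≤ C0 * lam ^ m := by positivity
      rw [h3]
      nlinarith

/-- all patterns of `g` have length `O(λ^k)` -/
def Cheap (g : P) : Prop := ∃ C : ℝ, 0 ≤ C ∧ ∀ (k : ℕ) (p : List Bool → Bool),
  WL (lift k fun v => if p v then g else 1) (C * lam ^ k)

theorem cheap_comm {x y : P} (hx : x ∈ Kg) (hy : y ∈ Kg) : Cheap ⁅x⁻¹, y⁆ := by
  obtain ⟨E, hE, hmov⟩ := exists_moving
  obtain ⟨C, hC, h⟩ := pat_all ((x, y) :: E)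
    (by
      intro z hz
      rw [List.mem_cons] at hz
      rcases hz with rfl | hz
      · exact ⟨hx, hy⟩
      · exact hE z hz)
    (by
      intro u hu
      obtain ⟨z, hz, h⟩ := hmov u hu
      exact ⟨z, List.mem_cons_of_mem _ hz, h⟩)
  exact ⟨C, hC, fun k p => h k (x, y) List.mem_cons_self p⟩

/-- the group of cheap elements -/
def CheapG : Subgroup P where
  carrier := {g | Cheap g}
  one_mem' := by
    refine ⟨0, le_rfl, fun k p => ?_⟩
    simp only [ite_self, lift_one, zero_mul]
    exact WL.one le_rfl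
  mul_mem' := by
    rintro g h ⟨C, hC, h1⟩ ⟨C', hC', h2⟩
    refine ⟨C + C', by positivity, fun k p => ?_⟩
    have := (h1 k p).mul (h2 k p)
    rw [lift_mul] at this
    have e : (fun v => (if p v then g else 1) * (if p v then h else 1)) =
        fun v => if p v then g * h else 1 := by
      funext v
      cases p v <;> simp
    rw [e] at this
    exact this.mono (by linarith)
  inv_mem' := by
    rintro g ⟨C, hC, h1⟩
    refine ⟨C, hC, fun k p => ?_⟩
    have := (h1 k p).inv
    rw [lift_inv] at this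
    have e : (fun v => (if p v then g else 1)⁻¹) = fun v => if p v then g⁻¹ else 1 := by
      funext v
      cases p v <;> simp
    rwa [e] at this

/-- the derived subgroup of `Kg` -/
def MM : Subgroup P := ⁅Kg, Kg⁆

theorem MM_le_cheap : MM ≤ CheapG := by
  unfold MM
  rw [Subgroup.commutator_le]
  intro x hx y hy
  have := cheap_comm (inv_mem hx) hy
  rwa [inv_inv] at this

theorem cheap_of_mem {g : P} (hg : g ∈ MM) : Cheap g := MM_le_cheap hg

theorem finite_cheap (Φ : List P) (h : ∀ g ∈ Φ, Cheap g) :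
    ∃ C : ℝ, 0 ≤ C ∧ ∀ (k : ℕ) (f : List Bool → P), (∀ v, f v ∈ Φ ∨ f v = 1) →
      WL (lift k f) (C * lam ^ k) := by
  classical
  induction Φ with
  | nil =>
    refine ⟨0, le_rfl, fun k f hf => ?_⟩
    have : f = fun _ => 1 := by
      funext v
      simpa using hf v
    rw [this, lift_one, zero_mul]
    exact WL.one le_rfl
  | cons g Φ ih =>
    obtain ⟨C, hC, h1⟩ := ih fun g' hg' => h g' (List.mem_cons_of_mem _ hg')
    obtain ⟨C', hC', h2⟩ := h g List.mem_cons_self
    refine ⟨C' + C, by positivity, fun k f hf => ?_⟩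
    have e : lift k f = lift k (fun v => if decide (f v = g) then g else 1) *
        lift k (fun v => if f v = g then 1 else f v) := by
      rw [lift_mul]
      apply lift_congr
      intro v _
      by_cases hv : f v = g
      · simp [hv]
      · simp [hv]
    rw [e]
    refine ((h2 k _).mul (h1 k _ ?_)).mono (by linarith)
    intro v
    by_cases hv : f v = g
    · simp [hv]
    · rw [if_neg hv]
      rcases hf v with h3 | h3
      · rw [List.mem_cons] at h3
        rcases h3 with h3 | h3
        · exact absurd h3 hv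
        · exact Or.inl h3
      · exact Or.inr h3

end Q21.GD
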