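import Pool.Agent.Q21.GD.Good

set_option autoImplicit false

/-! Diagonal elements of small length. -/

namespace Q21.GD

open Pool.Agent.Results.MP_03d093_al.SphereBall Pool.Agent.H776R2.Grig

/-- `g` is the value of a word of length at most `x` -/
def WL (g : P) (x : ℝ) : Prop := ∃ w : List Lt, (w.length : ℝ) ≤ x ∧ ev w = g

theorem WL.mono {g : P} {x y : ℝ} (h : WL g x) (hxy : x ≤ y) : WL g y := by
  obtain ⟨w, h1, h2⟩ := h
  exact ⟨w, h1.trans hxy, h2⟩

theorem WL.mul {g h : P} {x y : ℝ} (hg : WL g x) (hh : WL h y) : WL (g * h) (x + y) := by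
  obtain ⟨w, h1, rfl⟩ := hg
  obtain ⟨u, h2, rfl⟩ := hh
  refine ⟨w ++ u, ?_, ev_append _ _⟩
  rw [List.length_append]
  push_cast
  linarith

theorem WL.inv {g : P} {x : ℝ} (hg : WL g x) : WL g⁻¹ x := by
  obtain ⟨w, h1, rfl⟩ := hg
  exact ⟨w.reverse, by rwa [List.length_reverse], ev_reverse w⟩

theorem WL.one {x : ℝ} (hx : 0 ≤ x) : WL 1 x := ⟨[], by simpa using hx, rfl⟩

theorem WL.exists_of_ev (w : List Lt) : WL (ev w) w.length := ⟨w, le_rfl, rfl⟩

open scoped commutatorElement

theorem WL.comm {g h : P} {x y : ℝ} (hg : WL g x) (hh : WL h y) : WL ⁅g, h⁆ (2 * x + 2 * y) := by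
  rw [commutatorElement_def]
  exact (((hg.mul hh).mul hg.inv).mul hh.inv).mono (by linarith)

/-- the twist -/
def tw : ℕ → List Bool → Bool
  | 0, _ => false
  | _ + 1, [] => false
  | k + 1, true :: v => tw k v
  | k + 1, false :: v => if k = 0 then true else tw k (aFun v)

theorem tw_aFun (k : ℕ) (v : List Bool) (hv : v.length = k + 1) : tw (k + 1) (aFun v) = !(tw (k + 1) v) := by
  induction k generalizing v with
  | zero =>
    match v with
    | [true] => rfl
    | [false] => rfl
  | succ k ih =>
    have e1 : ∀ u : List Bool, tw (k + 1 + 1) (false :: u) = tw (k + 1) (aFun u) := by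
      intro u
      rw [tw, if_neg (by omega)]
    have e2 : ∀ u : List Bool, tw (k + 1 + 1) (true :: u) = tw (k + 1) u := fun u => rfl
    match v with
    | true :: v =>
      have h := ih v (by simpa using hv)
      have e3 : aFun (true :: v) = false :: v := rfl
      rw [e3, e1, e2, h]
    | false :: v =>
      have h := ih v (by simpa using hv)
      have e3 : aFun (false :: v) = true :: v := rfl
      rw [e3, e1, e2, h, Bool.not_not]

theorem pa_inv (e : Bool) : (pa e)⁻¹ = pa e := by
  rw [inv_eq_iff_mul_eq_one, S_pa_mul]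
  simp [pa]

/-- the iterates of the doubling substitution are twisted diagonal elements -/
theorem iter_eq (v : List V) (e : Bool) (he : Even (v.count V.b) ↔ e = false) (k : ℕ) :
    (Even ((th^[k] v).count V.b) ↔ e = false) ∧
    ev (U (th^[k] v)) * pa e =
      lift k (fun u => pa (tw k u) * (ev (U v) * pa e) * pa (tw k u)) := by
  induction k with
  | zero => exact ⟨he, by simp [lift, tw, pa]⟩
  | succ k ih =>
    obtain ⟨ih1, ih2⟩ := ih
    rw [Function.iterate_succ_apply']
    refine ⟨?_, ?_⟩
    · rw [count_b_th, Nat.even_add, ih1]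
      have : Even (2 * (th^[k] v).count V.c) := even_two_mul _
      simp [this]
    · have hs := S_sec (th^[k] v) e ih1
      have hnil : (ev (U (th (th^[k] v))) * pa e) [] = [] := by
        cases e
        · simpa [pa] using ev_nil_apply _
        · rw [Equiv.Perm.mul_apply]
          have : pa true [] = [] := by simp [pa]; rfl
          rw [this, ev_nil_apply]
      rw [eq_pr_of_sec hs hnil, ih2, lift]
      congr 1
      rcases Nat.eq_zero_or_pos k with rfl | hk
      · simp [lift, tw, pa, mul_assoc]
      · rw [conj_a_lift hk]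
        apply lift_congr
        intro u _
        have : k ≠ 0 := by omega
        simp [tw, this]

theorem lift_twist_not (k : ℕ) (z : P) :
    a * lift (k + 1) (fun u => pa (tw (k + 1) u) * z * pa (tw (k + 1) u)) * a =
      lift (k + 1) (fun u => pa (tw (k + 1) u) * (a * z * a) * pa (tw (k + 1) u)) := by
  rw [conj_a_lift (by omega)]
  apply lift_congr
  intro v hv
  rw [tw_aFun k v hv]
  cases tw (k + 1) v
  · simp [pa]
  · simp only [Bool.not_true, pa, Bool.false_eq_true, if_false, if_true]
    rw [one_mul, mul_one]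
    calc z = (a * a) * z * (a * a) := by rw [aa, one_mul, mul_one]
      _ = a * (a * z * a) * a := by simp only [mul_assoc]

/-- twisted diagonal elements of good words have length `O(λ^m)` -/
theorem diag {z : P} (hz : z ∈ Kg) : ∃ C : ℝ, 0 ≤ C ∧ ∀ m : ℕ,
    WL (lift m (fun u => pa (tw m u) * z * pa (tw m u))) (C * lam ^ m) := by
  obtain ⟨w, hw, rfl⟩ := hz
  obtain ⟨e0, e1, v, hev, hvl, -, hcd, hA⟩ := normal_form w
  have hcd' : Even (v.count V.c + v.count V.d) := hcd.2 (hw.eC.add hw.eD)
  have hA' : Even (v.length + e0.toNat + e1.toNat) := hA.2 hw.eA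
  have hpar : Even (v.count V.b) ↔ xor e0 e1 = false := by
    have h1 := S_count v
    rw [add_assoc] at h1
    have h2 : Even v.length ↔ Even (v.count V.b) := by
      rw [h1, Nat.even_add]
      simp [hcd']
    rw [← h2]
    cases e0 <;> cases e1 <;>
      simp only [Bool.toNat_false, Bool.toNat_true, add_zero, Nat.even_add_one] at hA' <;>
      simp [hA'] <;> simpa using hA'
  have hconj : ev (U v) * pa (xor e0 e1) = pa e0 * ev w * pa e0 := by
    rw [hev]
    have h1 : pa e0 * pa e0 = 1 := by rw [S_pa_mul]; simp [pa]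
    have h2 : pa e1 * pa e0 = pa (xor e0 e1) := by rw [S_pa_mul, Bool.xor_comm]
    calc ev (U v) * pa (xor e0 e1) = (pa e0 * pa e0) * ev (U v) * (pa e1 * pa e0) := by
          rw [h1, h2, one_mul]
      _ = _ := by simp only [mul_assoc]
  have hl1 : (1 : ℝ) ≤ lam := by have := lam_gt; linarith
  have hpa : ∀ e : Bool, WL (pa e) 1 := by
    intro e
    cases e
    · exact ⟨[], by simp, by simp [pa]⟩
    · exact ⟨[Lt.A], by simp, by simp [pa, gen]⟩
  have key : ∀ k : ℕ, WL (lift k (fun u => pa (tw k u) * (pa e0 * ev w * pa e0) * pa (tw k u)))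
      ((4 * w.length + 1) * lam ^ k) := by
    intro k
    have h := (iter_eq v _ hpar k).2
    rw [hconj] at h
    rw [← h]
    have h1 : WL (ev (U (th^[k] v))) (2 * (th^[k] v).length) :=
      ⟨_, by rw [S_U_length]; push_cast; exact le_rfl, rfl⟩
    refine (h1.mul (hpa _)).mono ?_
    have h2 := length_th_iter v k
    have h3 : (v.length : ℝ) ≤ w.length := by exact_mod_cast hvl
    have h4 : (1 : ℝ) ≤ lam ^ k := one_le_pow₀ hl1
    have h5 : (v.length : ℝ) * lam ^ k ≤ w.length * lam ^ k :=
      mul_le_mul_of_nonneg_right h3 (by linarith)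
    linarith
  have hlen0 : (0 : ℝ) ≤ w.length := Nat.cast_nonneg _
  refine ⟨4 * w.length + 3, by positivity, fun m => ?_⟩
  have h4 : (1 : ℝ) ≤ lam ^ m := one_le_pow₀ hl1
  cases e0
  · refine ((by simpa [pa] using key m : WL _ _)).mono ?_
    nlinarith
  · rcases m with _ | m
    · have : lift 0 (fun u => pa (tw 0 u) * ev w * pa (tw 0 u)) = ev w := by simp [lift, tw, pa]
      rw [this]
      refine (WL.exists_of_ev w).mono ?_
      nlinarith
    · have h := key (m + 1)
      have h6 : pa true * ev w * pa true = a * ev w * a := by simp [pa]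
      rw [h6, ← lift_twist_not] at h
      have ha : WL a 1 := by simpa [pa] using hpa true
      have h7 := (ha.mul h).mul ha
      have h8 : a * (a * lift (m + 1) (fun u => pa (tw (m + 1) u) * ev w * pa (tw (m + 1) u)) * a) * a =
          lift (m + 1) (fun u => pa (tw (m + 1) u) * ev w * pa (tw (m + 1) u)) := by
        calc _ = (a * a) * lift (m + 1) (fun u => pa (tw (m + 1) u) * ev w * pa (tw (m + 1) u)) *
              (a * a) := by simp only [mul_assoc]
          _ = _ := by rw [aa, one_mul, mul_one]
      rw [h8] at h7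
      refine h7.mono ?_
      nlinarith

/-- `u` or `a(u)` -/
def ua (e : Bool) (u : List Bool) : List Bool := if e then aFun u else u

theorem pa_emb (e : Bool) (u : List Bool) (hu : u ≠ []) (x : P) :
    pa e * emb u x * pa e = emb (ua e u) x := by
  cases e
  · simp [pa, ua]
  · simpa [pa, ua] using conj_a_emb u hu x

theorem diag_emb {x : P} (hx : x ∈ Kg) (u : List Bool) (hu : u ≠ []) : ∃ C : ℝ, 0 ≤ C ∧ ∀ m : ℕ,
    WL (lift m (fun v => emb (ua (tw m v) u) x)) (C * lam ^ m) := by
  obtain ⟨C, hC, h⟩ := diag (emb_mem_Kg u hx)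
  refine ⟨C, hC, fun m => ?_⟩
  have := h m
  simpa only [pa_emb _ u hu] using this

end Q21.GD
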