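import Pool.Agent.Q21.GD.Cheap

set_option autoImplicit false

/-! Finite index of the derived subgroup of `Kg`. -/

namespace Q21.GD

open Pool.Agent.Results.MP_03d093_al.SphereBall Pool.Agent.H776R2.Grig
open scoped commutatorElement

theorem fun_eq (w : List Bool) :
    Pool.Agent.Helper940.GrigIrr.bFun w = bFun w ∧ Pool.Agent.Helper940.GrigIrr.cFun w = cFun w ∧
    Pool.Agent.Helper940.GrigIrr.dFun w = dFun w := by
  have ha : ∀ w, Pool.Agent.Helper940.GrigIrr.aFun w = aFun w := by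
    intro w
    cases w <;> rfl
  induction w with
  | nil =>
    simp [Pool.Agent.Helper940.GrigIrr.bFun, Pool.Agent.Helper940.GrigIrr.cFun,
      Pool.Agent.Helper940.GrigIrr.dFun, bFun, cFun, dFun]
  | cons x w ih =>
    obtain ⟨h1, h2, h3⟩ := ih
    cases x <;>
      simp [Pool.Agent.Helper940.GrigIrr.bFun, Pool.Agent.Helper940.GrigIrr.cFun,
        Pool.Agent.Helper940.GrigIrr.dFun, bFun, cFun, dFun, h1, h2, h3, ha]

theorem pow_ev (w : List Lt) : ∃ k : ℕ, (ev w) ^ (2 ^ k) = 1 := by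
  have ha : Pool.Agent.Helper940.GrigIrr.a = a := by
    ext1 w
    cases w <;> rfl
  have hb : Pool.Agent.Helper940.GrigIrr.b = b := by ext1 w; exact (fun_eq w).1
  have hc : Pool.Agent.Helper940.GrigIrr.c = c := by ext1 w; exact (fun_eq w).2.1
  have hd : Pool.Agent.Helper940.GrigIrr.d = d := by ext1 w; exact (fun_eq w).2.2
  have hG : Pool.Agent.Helper940.GrigIrr.G = G := by
    unfold Pool.Agent.Helper940.GrigIrr.G G
    rw [ha, hb, hc, hd]
  have hw : ev w ∈ Pool.Agent.Helper940.GrigIrr.G := by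
    rw [hG]
    exact ev_mem w
  obtain ⟨k, hk⟩ := Pool.Agent.Helper940.GrigIrr.isPGroup ⟨ev w, hw⟩
  exact ⟨k, by simpa using congrArg Subtype.val hk⟩

theorem Kg_le_G : Kg ≤ G := by
  rintro g ⟨w, -, rfl⟩
  exact ev_mem w

theorem exists_word {g : P} (hg : g ∈ G) : ∃ w : List Lt, ev w = g := by
  unfold G at hg
  induction hg using Subgroup.closure_induction with
  | mem x hx =>
    simp only [Set.mem_insert_iff, Set.mem_singleton_iff] at hx
    rcases hx with rfl | rfl | rfl | rfl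
    · exact ⟨[Lt.A], by simp [gen]⟩
    · exact ⟨[Lt.B], by simp [gen]⟩
    · exact ⟨[Lt.C], by simp [gen]⟩
    · exact ⟨[Lt.D], by simp [gen]⟩
  | one => exact ⟨[], rfl⟩
  | mul x y _ _ hx hy =>
    obtain ⟨u, rfl⟩ := hx
    obtain ⟨v, rfl⟩ := hy
    exact ⟨u ++ v, ev_append _ _⟩
  | inv x _ hx =>
    obtain ⟨u, rfl⟩ := hx
    exact ⟨u.reverse, ev_reverse u⟩

theorem fg_Kg : Group.FG Kg := by
  have hGfg : Group.FG G := by
    rw [Group.fg_iff_subgroup_fg]
    refine ⟨(Set.toFinite ({a, b, c, d} : Set P)).toFinset, ?_⟩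
    rw [Set.Finite.coe_toFinset]
    rfl
  obtain ⟨R, hR, hcov⟩ := finite_Kg
  have hfin : Finite (G ⧸ Kg.subgroupOf G) := by
    have : Finite R := hR.to_subtype
    refine Finite.of_surjective (fun r : R => (QuotientGroup.mk (⟨ev r.1, ev_mem _⟩ : G) :
      G ⧸ Kg.subgroupOf G)) ?_
    intro q
    obtain ⟨g, rfl⟩ := QuotientGroup.mk_surjective q
    obtain ⟨w, hw⟩ := exists_word g.2
    obtain ⟨r, hr, h⟩ := hcov w
    refine ⟨⟨r, hr⟩, ?_⟩
    rw [QuotientGroup.eq, Subgroup.mem_subgroupOf]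
    rw [hw] at h
    exact h
  have hfi : (Kg.subgroupOf G).FiniteIndex := Subgroup.finiteIndex_of_finite_quotient
  have h1 : Group.FG (Kg.subgroupOf G) := Subgroup.fg_of_index_ne_zero _
  exact Group.fg_of_surjective (f := (Subgroup.subgroupOfEquivOfLe Kg_le_G).toMonoidHom)
    (Subgroup.subgroupOfEquivOfLe Kg_le_G).surjective

theorem ab_surj : Function.Surjective (Abelianization.of : Kg →* Abelianization Kg) :=
  QuotientGroup.mk'_surjective _

theorem finite_ab : Finite (Abelianization Kg) := by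
  have h1 : Group.FG Kg := fg_Kg
  have h2 : Group.FG (Abelianization Kg) := Group.fg_of_surjective (f := Abelianization.of)
    ab_surj
  apply CommGroup.finite_of_fg_isMulTorsion
  intro q
  obtain ⟨k, rfl⟩ := ab_surj q
  obtain ⟨w, -, hw⟩ := k.2
  obtain ⟨n, hn⟩ := pow_ev w
  rw [hw] at hn
  have h3 : k ^ (2 ^ n) = 1 := Subtype.ext (by simpa using hn)
  rw [isOfFinOrder_iff_pow_eq_one]
  exact ⟨2 ^ n, by positivity, by rw [← map_pow, h3, map_one]⟩

theorem mem_MM_iff {k : Kg} : (k : P) ∈ MM ↔ k ∈ commutator Kg := by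
  unfold MM
  rw [← Subgroup.map_subtype_commutator]
  constructor
  · rintro ⟨k', hk', h⟩
    have : k' = k := Subtype.ext h
    rwa [this] at hk'
  · intro h
    exact ⟨k, h, rfl⟩

/-- finitely many cosets of `MM` in `G` -/
theorem finite_MM : ∃ R : Set P, R.Finite ∧ (∀ r ∈ R, ∃ w : List Lt, ev w = r) ∧
    ∀ w : List Lt, ∃ r ∈ R, r⁻¹ * ev w ∈ MM := by
  classical
  have hf := finite_ab
  let rep : Abelianization Kg → P := fun q => ((Function.surjInv ab_surj q : Kg) : P)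
  obtain ⟨R, hR, hcov⟩ := finite_Kg
  refine ⟨(fun z : List Lt × P => ev z.1 * z.2) '' (R ×ˢ Set.range rep), ?_, ?_, ?_⟩
  · exact (hR.prod (Set.finite_range rep)).image _
  · rintro r ⟨⟨u, s⟩, ⟨-, ⟨q, rfl⟩⟩, rfl⟩
    obtain ⟨w, -, hw⟩ := (Function.surjInv ab_surj q : Kg).2
    refine ⟨u ++ w, ?_⟩
    rw [ev_append, hw]
  · intro w
    obtain ⟨r, hr, hk⟩ := hcov w
    set k : Kg := ⟨(ev r)⁻¹ * ev w, hk⟩ with hkdef
    refine ⟨_, ⟨(r, rep (Abelianization.of k)), ⟨hr, ⟨_, rfl⟩⟩, rfl⟩, ?_⟩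
    set s : Kg := Function.surjInv ab_surj (Abelianization.of k) with hs
    have h1 : Abelianization.of s = Abelianization.of k :=
      Function.surjInv_eq ab_surj _
    have h2 : s⁻¹ * k ∈ commutator Kg := by
      rw [← Abelianization.ker_of Kg, MonoidHom.mem_ker, map_mul, map_inv, h1, inv_mul_cancel]
    have h3 := mem_MM_iff.2 h2
    have h4 : (ev r * rep (Abelianization.of k))⁻¹ * ev w = ((s⁻¹ * k : Kg) : P) := by
      rw [mul_inv_rev, mul_assoc]
      rfl
    show (ev r * rep (Abelianization.of k))⁻¹ * ev w ∈ MM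
    rw [h4]
    exact h3

/-- `x ↦ (x, 1)` -/
def pr0 : P →* P where
  toFun := fun x => pr x 1
  map_one' := pr_one
  map_mul' := fun x y => by rw [pr_mul, one_mul]

/-- `x ↦ (1, x)` -/
def pr1 : P →* P where
  toFun := fun x => pr 1 x
  map_one' := pr_one
  map_mul' := fun x y => by rw [pr_mul, one_mul]

theorem pr_mem_MM {m0 m1 : P} (h0 : m0 ∈ MM) (h1 : m1 ∈ MM) : pr m0 m1 ∈ MM := by
  have e : pr m0 m1 = pr0 m0 * pr1 m1 := by
    show _ = pr m0 1 * pr 1 m1
    rw [pr_mul, one_mul, mul_one]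
  rw [e]
  refine mul_mem ?_ ?_
  · have : MM.map pr0 ≤ MM := by
      unfold MM
      rw [Subgroup.map_commutator]
      have h : Kg.map pr0 ≤ Kg := by
        rintro _ ⟨x, hx, rfl⟩
        exact pr_mem_Kg hx (one_mem _)
      exact Subgroup.commutator_mono h h
    exact this ⟨m0, h0, rfl⟩
  · have : MM.map pr1 ≤ MM := by
      unfold MM
      rw [Subgroup.map_commutator]
      have h : Kg.map pr1 ≤ Kg := by
        rintro _ ⟨x, hx, rfl⟩
        exact pr_mem_Kg (one_mem _) hx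
      exact Subgroup.commutator_mono h h
    exact this ⟨m1, h1, rfl⟩

theorem MM_le_Kg : MM ≤ Kg := Subgroup.commutator_le_self Kg

theorem MM_pr {k : P} (hk : k ∈ MM) : ∃ w0 w1 : List Lt, k = pr (ev w0) (ev w1) :=
  Kg_pr (MM_le_Kg hk)

/-- finitely many cosets of `MM × MM` in `MM` -/
theorem finite_T : ∃ T : List P, (∀ t ∈ T, t ∈ MM) ∧
    ∀ m ∈ MM, ∃ t ∈ T, ∃ m0 ∈ MM, ∃ m1 ∈ MM, m = t * pr m0 m1 := by
  classical
  obtain ⟨R, hR, -, hcov⟩ := finite_MM
  let Q : P × P → P → Prop := fun r t => t ∈ MM ∧ ∃ g0 g1 : P, t = pr g0 g1 ∧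
    r.1⁻¹ * g0 ∈ MM ∧ r.2⁻¹ * g1 ∈ MM
  let F : P × P → P := fun r => if h : ∃ t, Q r t then h.choose else 1
  have hfin : (F '' (R ×ˢ R)).Finite := (hR.prod hR).image _
  refine ⟨hfin.toFinset.toList, ?_, ?_⟩
  · intro t ht
    simp only [Finset.mem_toList, Set.Finite.mem_toFinset] at ht
    obtain ⟨r, -, rfl⟩ := ht
    by_cases h : ∃ t, Q r t
    · have : F r = h.choose := dif_pos h
      rw [this]
      exact h.choose_spec.1
    · have : F r = 1 := dif_neg h
      rw [this]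
      exact one_mem _
  · intro m hm
    obtain ⟨w0, w1, hw⟩ := MM_pr hm
    obtain ⟨r0, hr0, h0⟩ := hcov w0
    obtain ⟨r1, hr1, h1⟩ := hcov w1
    have h : ∃ t, Q (r0, r1) t := ⟨m, hm, _, _, hw, h0, h1⟩
    have hF : F (r0, r1) = h.choose := dif_pos h
    obtain ⟨hs1, g0, g1, hs2, hs3, hs4⟩ := h.choose_spec
    refine ⟨F (r0, r1), ?_, g0⁻¹ * ev w0, ?_, g1⁻¹ * ev w1, ?_, ?_⟩
    · simp only [Finset.mem_toList, Set.Finite.mem_toFinset]
      exact ⟨_, ⟨hr0, hr1⟩, rfl⟩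
    · have := mul_mem (inv_mem hs3) h0
      simpa [mul_assoc] using this
    · have := mul_mem (inv_mem hs4) h1
      simpa [mul_assoc] using this
    · rw [hF, hs2, pr_mul, mul_inv_cancel_left, mul_inv_cancel_left, hw]

end Q21.GD
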