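import Pool.Agent.Q21.GD.Basic
import Pool.Agent.Helper940.GrigIrr

set_option autoImplicit false
set_option linter.unusedSimpArgs false

/-! The branching subgroup of the Grigorchuk group given by good words. -/

namespace Q21.GD

open Pool.Agent.Results.MP_03d093_al.SphereBall Pool.Agent.H776R2.Grig

theorem tauG_sq (s : Lt) : tauG s * tauG s = 1 := by
  cases s
  · exact dd
  · exact one_mul 1
  · exact aa
  · exact aa

theorem tau_reverse (w : List Lt) : tau w.reverse = (tau w)⁻¹ := by
  induction w with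
  | nil => simp [tau]
  | cons s w ih =>
    have h1 : tau [s] = (tauG s)⁻¹ := by
      rw [eq_inv_iff_mul_eq_one]
      simp [tau, tauG_sq]
    rw [List.reverse_cons, B_tau_append, ih, h1, B_tau_cons, mul_inv_rev]

theorem sig_reverse (w : List Lt) : sig w.reverse = (sig w).reverse := by
  induction w with
  | nil => rfl
  | cons s w ih =>
    have h1 : sig [s] = (sg s).reverse := by cases s <;> rfl
    rw [List.reverse_cons, B_sig_append, ih, h1, B_sig_cons, List.reverse_append]

theorem good_reverse {w : List Lt} (h : Good w) : Good w.reverse := by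
  refine ⟨?_, ?_, ?_, ?_, ?_, ?_⟩
  · rw [tau_reverse, h.t1, inv_one]
  · rw [sig_reverse, tau_reverse, h.t2, inv_one]
  · simpa using h.eA
  · simpa using h.eB
  · simpa using h.eC
  · simpa using h.eD

theorem tau_sg_sq (s : Lt) : tau (sg s) * tau (sg s) = 1 := by
  cases s
  · have e : tau (sg Lt.A) = d * a * d := by simp [sg, tau, tauG, mul_assoc]
    rw [e]
    calc (d * a * d) * (d * a * d) = d * a * (d * d) * a * d := by group
      _ = d * (a * a) * d := by rw [dd, mul_one]; group
      _ = 1 := by rw [aa, mul_one, dd]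
  · have e : tau (sg Lt.B) = a := by simp [sg, tau, tauG]
    rw [e]; exact aa
  · have e : tau (sg Lt.C) = 1 := by simp [sg, tau, tauG]
    rw [e, one_mul]
  · have e : tau (sg Lt.D) = a := by simp [sg, tau, tauG]
    rw [e]; exact aa

theorem good_conj {w : List Lt} (h : Good w) (s : Lt) : Good (s :: (w ++ [s])) := by
  refine ⟨?_, ?_, ?_, ?_, ?_, ?_⟩
  · rw [B_tau_cons, B_tau_append, h.t1, one_mul]
    simp [tau, tauG_sq]
  · rw [B_sig_cons, B_sig_append, B_tau_append, B_tau_append, h.t2, one_mul]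
    have : sig [s] = sg s := by simp [sig]
    rw [this]
    exact tau_sg_sq s
  all_goals
    have h1 := h.eA
    have h2 := h.eB
    have h3 := h.eC
    have h4 := h.eD
    cases s <;> simp [List.count_cons, Nat.even_add_one, *]

theorem good_conj' {w : List Lt} (h : Good w) (e : List Lt) : Good (e ++ (w ++ e.reverse)) := by
  induction e with
  | nil => simpa using h
  | cons s e ih =>
    have := good_conj ih s
    rw [List.reverse_cons]
    simpa [List.append_assoc] using this

/-- the group of values of good words -/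
def Kg : Subgroup P where
  carrier := {g | ∃ w, Good w ∧ ev w = g}
  one_mem' := ⟨[], B_good_nil, rfl⟩
  mul_mem' := by
    rintro g h ⟨u, hu, rfl⟩ ⟨w, hw, rfl⟩
    exact ⟨u ++ w, B_good_append hu hw, ev_append _ _⟩
  inv_mem' := by
    rintro g ⟨u, hu, rfl⟩
    exact ⟨u.reverse, good_reverse hu, ev_reverse u⟩

theorem mem_Kg {g : P} : g ∈ Kg ↔ ∃ w, Good w ∧ ev w = g := Iff.rfl

theorem Kg_conj {k : P} (hk : k ∈ Kg) (e : List Lt) : ev e * k * (ev e)⁻¹ ∈ Kg := by
  obtain ⟨w, hw, rfl⟩ := hk
  refine ⟨_, good_conj' hw e, ?_⟩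
  rw [ev_append, ev_append, ev_reverse, mul_assoc]

theorem pr_mem_Kg {g0 g1 : P} (h0 : g0 ∈ Kg) (h1 : g1 ∈ Kg) : pr g0 g1 ∈ Kg := by
  obtain ⟨w0, hw0, rfl⟩ := h0
  obtain ⟨w1, hw1, rfl⟩ := h1
  exact ⟨B_join w0 w1, B_join_good hw0 hw1, eq_pr_of_sec (B_join_sec hw0 hw1) (ev_nil_apply _)⟩

theorem lift_mem_Kg (n : ℕ) (f : List Bool → P) (hf : ∀ v, f v ∈ Kg) : lift n f ∈ Kg := by
  induction n generalizing f with
  | zero => exact hf []
  | succ n ih => exact pr_mem_Kg (ih _ fun v => hf _) (ih _ fun v => hf _)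

theorem emb_mem_Kg (u : List Bool) {x : P} (hx : x ∈ Kg) : emb u x ∈ Kg := by
  induction u with
  | nil => exact hx
  | cons b u ih =>
    cases b
    · exact pr_mem_Kg ih (one_mem _)
    · exact pr_mem_Kg (one_mem _) ih

theorem pa_mul_not (e : Bool) : pa e * pa (!e) = a := by
  cases e <;> simp [pa]

/-- sections of a word at the first level -/
theorem sec_exists (w : List Lt) : ∃ (e : Bool) (w0 w1 : List Lt),
    Sec (ev w * pa e) (ev w0) (ev w1) ∧ (e = false ↔ Even (w.count Lt.A)) := by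
  induction w with
  | nil => exact ⟨false, [], [], by simpa [pa] using Sec.one, by simp⟩
  | cons s w ih =>
    obtain ⟨e, w0, w1, h, he⟩ := ih
    cases s
    · refine ⟨!e, w1, w0, ?_, ?_⟩
      · have h1 := h.conj
        have e1 : a * (ev w * pa e) * a = ev (Lt.A :: w) * pa (!e) := by
          have : pa e * a = pa (!e) := by
            rw [← pa_mul_not e, ← mul_assoc, S_pa_mul]
            simp [pa]
          rw [ev_cons, mul_assoc a, mul_assoc (ev w), this]
          simp [gen, mul_assoc]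
        rw [← e1]
        exact h1
      · rw [List.count_cons_self, Nat.even_add_one, ← he]
        cases e <;> simp
    · refine ⟨e, Lt.A :: w0, Lt.C :: w1, ?_, ?_⟩
      · rw [ev_cons, ev_cons, ev_cons, mul_assoc]
        exact sec_b.mul h
      · rw [he]; simp
    · refine ⟨e, Lt.A :: w0, Lt.D :: w1, ?_, ?_⟩
      · rw [ev_cons, ev_cons, ev_cons, mul_assoc]
        exact sec_c.mul h
      · rw [he]; simp
    · refine ⟨e, w0, Lt.B :: w1, ?_, ?_⟩
      · rw [ev_cons, ev_cons, mul_assoc]
        have := sec_d.mul h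
        rw [one_mul] at this
        exact this
      · rw [he]; simp

theorem Kg_pr {k : P} (hk : k ∈ Kg) : ∃ w0 w1 : List Lt, k = pr (ev w0) (ev w1) := by
  obtain ⟨w, hw, rfl⟩ := hk
  obtain ⟨e, w0, w1, h, he⟩ := sec_exists w
  have he' : e = false := he.2 hw.eA
  subst he'
  refine ⟨w0, w1, eq_pr_of_sec (by simpa [pa] using h) (ev_nil_apply w)⟩

/-- the finite data of a word -/
noncomputable def dat (w : List Lt) : DD × DD × (Bool × Bool × Bool × Bool) := by
  classical
  exact (⟨tau w, tau_mem w⟩, ⟨tau (sig w), tau_mem _⟩, decide (Even (w.count Lt.A)),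
    decide (Even (w.count Lt.B)), decide (Even (w.count Lt.C)), decide (Even (w.count Lt.D)))

theorem good_of_dat {u w : List Lt} (h : dat u = dat w) : Good (u.reverse ++ w) := by
  simp only [dat, Prod.mk.injEq, Subtype.mk.injEq, decide_eq_decide] at h
  obtain ⟨h1, h2, h3, h4, h5, h6⟩ := h
  refine ⟨?_, ?_, ?_, ?_, ?_, ?_⟩
  · rw [B_tau_append, tau_reverse, h1, inv_mul_cancel]
  · rw [B_sig_append, B_tau_append, sig_reverse, tau_reverse, h2, inv_mul_cancel]
  · rw [List.count_append, List.count_reverse, Nat.even_add, h3]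
  · rw [List.count_append, List.count_reverse, Nat.even_add, h4]
  · rw [List.count_append, List.count_reverse, Nat.even_add, h5]
  · rw [List.count_append, List.count_reverse, Nat.even_add, h6]

/-- finitely many cosets of `Kg` -/
theorem finite_Kg : ∃ R : Set (List Lt), R.Finite ∧ ∀ w : List Lt, ∃ r ∈ R, (ev r)⁻¹ * ev w ∈ Kg := by
  classical
  have : Finite DD := DD_finite.to_subtype
  have hfin : (Set.range dat).Finite := Set.toFinite _
  let rep : (DD × DD × (Bool × Bool × Bool × Bool)) → List Lt := fun z =>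
    if h : ∃ w, dat w = z then h.choose else []
  refine ⟨rep '' Set.range dat, hfin.image _, fun w => ⟨rep (dat w), ⟨_, ⟨w, rfl⟩, rfl⟩, ?_⟩⟩
  have h : ∃ w', dat w' = dat w := ⟨w, rfl⟩
  have h1 : dat (rep (dat w)) = dat w := by
    simp only [rep, dif_pos h]
    exact h.choose_spec
  exact ⟨_, good_of_dat h1, by rw [ev_append, ev_reverse]⟩

/-! ### Transitivity -/

theorem ev_sig_true (w : List Lt) (u : List Bool) : ev (sig w) (true :: u) = true :: ev w u :=
  (sec_sig w u).2

theorem trans_level (n : ℕ) (u w : List Bool) (hu : u.length = n) (hw : w.length = n) :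
    ∃ e : List Lt, ev e u = w := by
  induction n generalizing u w with
  | zero =>
    rw [List.length_eq_zero_iff] at hu hw
    subst hu hw
    exact ⟨[], rfl⟩
  | succ n ih =>
    obtain ⟨x, u, rfl⟩ : ∃ x u', u = x :: u' := by
      cases u with
      | nil => simp at hu
      | cons x u => exact ⟨x, u, rfl⟩
    obtain ⟨y, w, rfl⟩ : ∃ x u', w = x :: u' := by
      cases w with
      | nil => simp at hw
      | cons x u => exact ⟨x, u, rfl⟩
    obtain ⟨e, he⟩ := ih u w (by simpa using hu) (by simpa using hw)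
    have h1 : ∀ x : Bool, ∀ u : List Bool, ∃ e1 : List Lt, ev e1 (x :: u) = true :: u ∧
        ev e1 (true :: u) = x :: u := by
      intro x u
      cases x
      · exact ⟨[Lt.A], by simp [gen, a_apply, aFun], by simp [gen, a_apply, aFun]⟩
      · exact ⟨[], by simp, by simp⟩
    obtain ⟨e1, he1, -⟩ := h1 x u
    obtain ⟨e2, -, he2⟩ := h1 y w
    refine ⟨e2 ++ (sig e ++ e1), ?_⟩
    rw [ev_append, ev_append, Equiv.Perm.mul_apply, Equiv.Perm.mul_apply, he1, ev_sig_true, he, he2]

open scoped commutatorElement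

/-- the set of commutators of elements of `Kg` -/
def CK : Set P := {g | ∃ x ∈ Kg, ∃ y ∈ Kg, ⁅x⁻¹, y⁆ = g}

def x0 : P := ev [Lt.A, Lt.B, Lt.A, Lt.B]
def y0 : P := ev [Lt.C, Lt.A, Lt.B, Lt.A, Lt.B, Lt.C]

theorem x0_mem : x0 ∈ Kg := ⟨_, B_good_abab, rfl⟩
theorem y0_mem : y0 ∈ Kg := ⟨_, good_conj B_good_abab Lt.C, rfl⟩

theorem e0_moves : ⁅x0⁻¹, y0⁆ [true, false, false, false] ≠ [true, false, false, false] := by
  have h : ⁅x0⁻¹, y0⁆ = ev ([Lt.B, Lt.A, Lt.B, Lt.A] ++ [Lt.C, Lt.A, Lt.B, Lt.A, Lt.B, Lt.C] ++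
      [Lt.A, Lt.B, Lt.A, Lt.B] ++ [Lt.C, Lt.B, Lt.A, Lt.B, Lt.A, Lt.C]) := by
    rw [ev_append, ev_append, ev_append, commutatorElement_def, inv_inv]
    have e1 : x0⁻¹ = ev [Lt.B, Lt.A, Lt.B, Lt.A] := (ev_reverse _).symm
    have e2 : y0⁻¹ = ev [Lt.C, Lt.B, Lt.A, Lt.B, Lt.A, Lt.C] := (ev_reverse _).symm
    rw [e1, e2]
    rfl
  rw [h]
  simp [ev, gen, a_apply, b_apply, c_apply, d_apply, aFun, bFun, cFun, dFun]

/-- every vertex of level `≥ 4` is moved by one of finitely many commutators -/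
theorem exists_moving : ∃ E : List (P × P), (∀ z ∈ E, z.1 ∈ Kg ∧ z.2 ∈ Kg) ∧
    ∀ u : List Bool, 4 ≤ u.length → ∃ z ∈ E, ⁅z.1⁻¹, z.2⁆ u ≠ u := by
  classical
  have htr : ∀ u : List Bool, ∃ e : List Lt, u.length = 4 → ev e u = [true, false, false, false] := by
    intro u
    by_cases hu : u.length = 4
    · obtain ⟨e, he⟩ := trans_level 4 u [true, false, false, false] hu rfl
      exact ⟨e, fun _ => he⟩
    · exact ⟨[], fun h => absurd h hu⟩
  choose e he using htr
  let F : List Bool → P × P := fun u =>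
    ((ev (e u))⁻¹ * x0 * (ev (e u))⁻¹⁻¹, (ev (e u))⁻¹ * y0 * (ev (e u))⁻¹⁻¹)
  have hfin : {u : List Bool | u.length = 4}.Finite := List.finite_length_eq Bool 4
  refine ⟨hfin.toFinset.toList.map F, ?_, ?_⟩
  · intro z hz
    rw [List.mem_map] at hz
    obtain ⟨u, -, rfl⟩ := hz
    have hrev := ev_reverse (e u)
    refine ⟨?_, ?_⟩
    · show (ev (e u))⁻¹ * x0 * (ev (e u))⁻¹⁻¹ ∈ Kg
      rw [← hrev]
      exact Kg_conj x0_mem _
    · show (ev (e u))⁻¹ * y0 * (ev (e u))⁻¹⁻¹ ∈ Kg
      rw [← hrev]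
      exact Kg_conj y0_mem _
  · intro u hu
    have h4 : (u.take 4).length = 4 := by rw [List.length_take]; omega
    refine ⟨F (u.take 4), ?_, ?_⟩
    · rw [List.mem_map]
      exact ⟨u.take 4, by simpa using h4, rfl⟩
    · have hc : ⁅(F (u.take 4)).1⁻¹, (F (u.take 4)).2⁆ =
          (ev (e (u.take 4)))⁻¹ * ⁅x0⁻¹, y0⁆ * ev (e (u.take 4)) := by
        simp only [F, commutatorElement_def]
        group
      intro hfix
      have hTA : TA ((ev (e (u.take 4)))⁻¹ * ⁅x0⁻¹, y0⁆ * ev (e (u.take 4))) := by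
        rw [← hc]
        have : ∀ k ∈ Kg, TA k := by
          rintro k ⟨w, -, rfl⟩
          exact ta_ev w
        apply this
        refine Subgroup.mul_mem _ (Subgroup.mul_mem _ (Subgroup.mul_mem _ ?_ ?_) ?_) ?_
        all_goals
          have hz := Kg_conj x0_mem (e (u.take 4)).reverse
          have hz2 := Kg_conj y0_mem (e (u.take 4)).reverse
          rw [ev_reverse] at hz hz2
          simp only [F]
          first
            | exact hz2
            | exact inv_mem hz2
            | exact inv_mem hz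
            | exact inv_mem (inv_mem hz)
      have h1 := hTA.2 u 4
      rw [← hc, hfix, hc] at h1
      have h2 := congrArg (ev (e (u.take 4))) h1
      rw [Equiv.Perm.mul_apply, Equiv.Perm.mul_apply, ai, he _ h4] at h2
      exact e0_moves h2.symm

end Q21.GD
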